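import Mathlib
import Pool.Agent.W543.GE.Stm

/-!
# Good endomorphisms of free algebras: the Jacobian matrix of an automorphism
-/

set_option autoImplicit false

open scoped TensorProduct Kronecker

universe u

namespace Pool.Agent.W571.GE

open Pool.Agent.W543.GE

section

variable {K : Type u} [Field K] {n : ℕ} {R : Type u} [CommRing R] [Algebra K R] {N N' : ℕ}

theorem ev_comp {S : Type u} [Ring S] [Algebra K S] (X : Fin n → S) (θ : A K n →ₐ[K] A K n)
    (a : A K n) : ev (fun k => ev X (θ (x k))) a = ev X (θ a) := by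
  induction a using FreeAlgebra.induction with
  | grade0 r => rw [AlgHom.commutes, AlgHom.commutes, AlgHom.commutes]
  | grade1 j => rw [FreeAlgebra.lift_ι_apply]
  | mul a b ha hb => rw [map_mul, map_mul, map_mul, ha, hb]
  | add a b ha hb => rw [map_add, map_add, map_add, ha, hb]

theorem ev_star {S : Type u} [Ring S] [Algebra K S] (Y : Fin n → S) (θ : A K n →ₐ[K] A K n)
    (a : A K n) : ev (fun k => ev Y (star (θ (x k)))) (star a) = ev Y (star (θ a)) := by
  induction a using FreeAlgebra.induction with
  | grade0 r =>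
    rw [FreeAlgebra.star_algebraMap, AlgHom.commutes, AlgHom.commutes, FreeAlgebra.star_algebraMap,
      AlgHom.commutes]
  | grade1 j => rw [FreeAlgebra.star_ι, FreeAlgebra.lift_ι_apply]
  | mul a b ha hb => rw [star_mul, map_mul, map_mul, star_mul, map_mul, ha, hb]
  | add a b ha hb => rw [star_add, map_add, map_add, star_add, map_add, ha, hb]

theorem kap_lf (X : Fin n → Matrix (Fin N) (Fin N) R) (Y : Fin n → Matrix (Fin N') (Fin N') R)
    (θ : A K n →ₐ[K] A K n) (a : A K n) :
    kap (fun k => ev X (θ (x k))) (fun k => ev Y (star (θ (x k)))) (lf a) =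
      kap X Y (lf (θ a)) := by
  unfold lf
  rw [kap_tmul, kap_tmul, ev_comp, map_one, map_one]

theorem kap_rt (X : Fin n → Matrix (Fin N) (Fin N) R) (Y : Fin n → Matrix (Fin N') (Fin N') R)
    (θ : A K n →ₐ[K] A K n) (b : A K n) :
    kap (fun k => ev X (θ (x k))) (fun k => ev Y (star (θ (x k)))) (rt b) =
      kap X Y (rt (θ b)) := by
  unfold rt
  rw [kap_tmul, kap_tmul, ev_star, map_one, map_one]

/-- the chain rule -/
theorem chain (X : Fin n → Matrix (Fin N) (Fin N) R) (Y : Fin n → Matrix (Fin N') (Fin N') R)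
    (θ : A K n →ₐ[K] A K n) (a : A K n) (i : Fin n) :
    kap X Y (dd (θ a) i) = ∑ k, kap (fun k => ev X (θ (x k))) (fun k => ev Y (star (θ (x k))))
      (dd a k) * kap X Y (dd (θ (x k)) i) := by
  induction a using FreeAlgebra.induction with
  | grade0 r =>
    rw [AlgHom.commutes, dd_algebraMap]
    simp
  | grade1 j =>
    rw [dd_x]
    rw [Finset.sum_eq_single j]
    · rw [Pi.single_eq_same, map_one, one_mul]
    · intro k _ hk
      rw [Pi.single_eq_of_ne hk, map_zero, zero_mul]
    · intro h
      exact absurd (Finset.mem_univ j) h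
  | mul a b ha hb =>
    rw [map_mul, dd_mul, map_add, map_mul, map_mul, ha, hb, Finset.mul_sum, Finset.mul_sum,
      ← Finset.sum_add_distrib]
    refine Finset.sum_congr rfl fun k _ => ?_
    rw [dd_mul, map_add, map_mul, map_mul, kap_lf, kap_rt, add_mul, mul_assoc, mul_assoc]
  | add a b ha hb =>
    rw [map_add, map_add, Pi.add_apply, map_add, ha, hb, ← Finset.sum_add_distrib]
    refine Finset.sum_congr rfl fun k _ => ?_
    rw [map_add, Pi.add_apply, map_add, add_mul]

end

theorem t_UNITJ : UNITJ_stmt.{u} := by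
  intro K _ n θ R _ _ N N' X Y
  have key : big (fun k => ev X (θ.toAlgHom (x k))) (fun k => ev Y (star (θ.toAlgHom (x k))))
      (jac θ.symm.toAlgHom) * big X Y (jac θ.toAlgHom) = 1 := by
    ext p q
    rw [Matrix.mul_apply, Fintype.sum_prod_type]
    have h1 := chain X Y θ.toAlgHom (θ.symm (x p.1)) q.1
    have h2 : θ.toAlgHom (θ.symm (x p.1)) = x p.1 := θ.apply_symm_apply _
    rw [h2, dd_x] at h1
    have h3 := congrArg (fun M : Matrix (Fin N × Fin N') (Fin N × Fin N') R => M p.2 q.2) h1
    simp only [Matrix.sum_apply, Matrix.mul_apply] at h3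
    refine Eq.trans ?_ (h3.symm.trans ?_)
    · rfl
    · obtain ⟨p1, p2⟩ := p
      obtain ⟨q1, q2⟩ := q
      by_cases h : q1 = p1
      · subst h
        rw [Pi.single_eq_same, map_one]
        simp [Matrix.one_apply]
      · rw [Pi.single_eq_of_ne h, map_zero]
        rw [Matrix.one_apply_ne]
        · rfl
        · intro h4
          exact h (Prod.ext_iff.1 h4).1.symm
  have hdet := congrArg Matrix.det key
  rw [Matrix.det_mul, Matrix.det_one] at hdet
  exact IsUnit.of_mul_eq_one_right _ hdet

end Pool.Agent.W571.GE
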